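import Pool.Agent.Helper90.MZ.StmtsZ

/-!
# MP_79eb7e_lc, full answer: module ZSB (matching bases)
-/

set_option autoImplicit false

namespace Pool.Agent.Helper90.MZ

open Pool.Agent.Helper90.TS

variable {V G : Type} [Group G] [MulAction G V]

/-- maximal independent family of realizations of `p|M` in `Q` -/
def zsb_P (X : Ctx V G) (Q M : Set V) (p : Ty V) {κ : Type} (b : κ → Fin 1 → V) : Prop :=
  (∀ k, Set.range (b k) ⊆ Q) ∧ (∀ k, Rl X p M (b k)) ∧ Ind X M (fun k => Set.range (b k)) ∧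
    Om X p (M ∪ ⋃ k, Set.range (b k)) Q

theorem zsb_of_dmn {X : Ctx V G} {Q M : Set V} {p : Ty V} (hp : p.A ⊆ M) {k : ℕ}
    (h : Dmn X p M Q k) : ∃ b : Fin k → Fin 1 → V, zsb_P X Q M p b := by
  obtain ⟨y, h1, h2, h3⟩ := h
  rw [Set.union_eq_self_of_subset_left hp] at h2
  exact ⟨y, fun i => (h1 i).1, fun i => (h1 i).2, h2, h3⟩

theorem zsb_to_dmn {X : Ctx V G} {Q M : Set V} {p : Ty V} (hp : p.A ⊆ M) {k : ℕ}
    {b : Fin k → Fin 1 → V} (h : zsb_P X Q M p b) : Dmn X p M Q k := by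
  obtain ⟨h1, h2, h3, h4⟩ := h
  refine ⟨b, fun i => ⟨h1 i, h2 i⟩, ?_, h4⟩
  rwa [Set.union_eq_self_of_subset_left hp]

theorem zsb_reindex (h3 : ST_IND) {X : Ctx V G} {Q M : Set V} {p : Ty V} (hM : M.Countable)
    {κ κ' : Type} (e : κ' ≃ κ) {b : κ → Fin 1 → V} (h : zsb_P X Q M p b) :
    zsb_P X Q M p (fun i => b (e i)) := by
  obtain ⟨h1, h2, h5, h4⟩ := h
  refine ⟨fun i => h1 _, fun i => h2 _, ?_, ?_⟩
  · exact (h3 V G X M hM).2.2.1 κ κ' (fun k => Set.range (b k)) e e.injective h5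
  · have : (⋃ i, Set.range (b (e i))) = ⋃ k, Set.range (b k) :=
      e.surjective.iUnion_comp (fun k => Set.range (b k))
    rw [this]
    exact h4

/-- a realization of `p|M` is not independent from itself -/
theorem zsb_self (h4 : ST_RLB) (h7 : ST_MDLB) {X : Ctx V G} {M : Set V} {p : Ty V}
    (hM : M.Countable) (hSR : SR X p) (hp : p.A ⊆ M) {y : Fin 1 → V} (h : Rl X p M y)
    (hs : SI X M (Set.range y) (Set.range y)) : False := by
  have hy : (Set.range y).Countable := Set.countable_range y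
  obtain ⟨N, hN, h5, h6⟩ := (h7 V G X).2.1 M (Set.range y) (M ∪ Set.range y)
    Set.subset_union_left (hM.union hy) hy ((si_add_basel hM hy hy).2 hs)
  have h8 : SI X M (Set.range y) N := si_symm hM hN.1 hy h6
  have e : p.A ∪ M = M := Set.union_eq_self_of_subset_left hp
  have h9 : Rl X p (M ∪ N) y := by
    refine (h4 V G X p hSR M hM).2.2.2.1 y N hN.1 h ?_
    rw [e]
    exact h8
  have h10 : Rl X p N y := by
    refine (h4 V G X p hSR (M ∪ N) (hM.union hN.1)).2.2.1 y h9 N ?_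
    intro x hx
    exact Or.inr (Or.inr hx)
  exact (h4 V G X p hSR N hN.1).2.2.2.2.2.2.2.1 y h10 hN (hp.trans (Set.subset_union_left.trans h5))
    (Set.subset_union_right.trans h5)

theorem zsb_single {X : Ctx V G} {M : Set V} (y : Fin 1 → V) :
    Ind X M (fun _ : Unit => Set.range y) := by
  intro I J hIJ
  by_cases hI : () ∈ I
  · have hJ : () ∉ J := fun hJ => (Set.disjoint_left.1 hIJ) hI hJ
    have : (⋃ j ∈ J, Set.range y) = ∅ := by
      ext x
      simp only [Set.mem_iUnion, Set.mem_empty_iff_false, iff_false]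
      rintro ⟨j, hj, _⟩
      exact hJ hj
    rw [this]
    exact si_empty_right
  · have : (⋃ j ∈ I, Set.range y) = ∅ := by
      ext x
      simp only [Set.mem_iUnion, Set.mem_empty_iff_false, iff_false]
      rintro ⟨j, hj, _⟩
      exact hI hj
    rw [this]
    exact si_empty_left

theorem zsb_countable {Q : Set V} (hQ : Q.Countable) {S : Set (Fin 1 → V)}
    (hS : ∀ y ∈ S, Set.range y ⊆ Q) : S.Countable := by
  have : Function.Injective (fun y : S => (⟨y.1 0, hS y.1 y.2 ⟨0, rfl⟩⟩ : Q)) := by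
    rintro ⟨y, hy⟩ ⟨z, hz⟩ h
    apply Subtype.ext
    funext i
    have := congrArg Subtype.val h
    rw [Subsingleton.elim i 0]
    exact this
  have hc : Countable Q := hQ
  exact this.countable

/-- maximal families exist -/
theorem zsb_zorn (h3 : ST_IND) (h4 : ST_RLB) (h7 : ST_MDLB) {X : Ctx V G} {Q M : Set V}
    {p : Ty V} (hQ : Q.Countable) (hM : M.Countable) (hSR : SR X p) (hp : p.A ⊆ M) :
    ∃ S : Set (Fin 1 → V), S.Countable ∧ zsb_P X Q M p (fun y : S => y.1) := by
  classical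
  let 𝒮 : Set (Set (Fin 1 → V)) := {S | (∀ y ∈ S, Set.range y ⊆ Q ∧ Rl X p M y) ∧
    Ind X M (fun y : S => Set.range y.1)}
  have hc : ∀ S ∈ 𝒮, S.Countable := fun S hS => zsb_countable hQ (fun y hy => (hS.1 y hy).1)
  obtain ⟨S, _, hS⟩ := zorn_subset_nonempty 𝒮 (by
    intro c hc1 hc2 hc3
    refine ⟨⋃₀ c, ⟨?_, ?_⟩, fun s hs => Set.subset_sUnion_of_mem hs⟩
    · rintro y ⟨S, hS, hy⟩
      exact (hc1 hS).1 y hy
    · have hcc : (⋃₀ c).Countable := zsb_countable hQ (by
        rintro y ⟨S, hS, hy⟩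
        exact ((hc1 hS).1 y hy).1)
      have : Countable ↥(⋃₀ c) := hcc
      refine (h3 V G X M hM).2.2.2.2.2.2.2.2 ↥(⋃₀ c) (fun y => Set.range y.1)
        (fun y => Set.countable_range _) ?_
      intro s
      obtain ⟨t, ht, hst⟩ := DirectedOn.exists_mem_subset_of_finite_of_subset_sUnion hc3
        hc2.directedOn (s := Subtype.val '' (s : Set ↥(⋃₀ c)))
        ((Finset.finite_toSet s).image _) (by
          rintro _ ⟨z, _, rfl⟩
          exact z.2)
      have hmem : ∀ z : s, z.1.1 ∈ t := fun z => hst ⟨z.1, z.2, rfl⟩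
      exact (h3 V G X M hM).2.2.1 t s (fun y => Set.range y.1) (fun z => ⟨z.1.1, hmem z⟩)
        (by
          intro z w hzw
          apply Subtype.ext
          apply Subtype.ext
          have h8 := congrArg (fun u : ↥t => u.1) hzw
          exact h8) (hc1 ht).2) ∅
    (by
      refine ⟨fun y hy => hy.elim, ?_⟩
      intro I J _
      have : (⋃ j ∈ I, Set.range (j : (∅ : Set (Fin 1 → V))).1) = ∅ := by
        ext x
        simp only [Set.mem_iUnion, Set.mem_empty_iff_false, iff_false]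
        rintro ⟨j, _⟩
        exact j.2
      rw [this]
      exact si_empty_left)
  refine ⟨S, hc S hS.prop, fun k => (hS.prop.1 k.1 k.2).1, fun k => (hS.prop.1 k.1 k.2).2,
    hS.prop.2, ?_⟩
  have hSc : Countable S := hc S hS.prop
  intro y hy hr
  have hcu : (⋃ k : S, Set.range k.1).Countable :=
    Set.countable_iUnion fun k => Set.countable_range _
  have hsi : SI X M (Set.range y) (⋃ k : S, Set.range k.1) := by
    have := (h4 V G X p hSR M hM).2.2.2.2.1 y _ hcu hr
    rwa [Set.union_eq_self_of_subset_left hp] at this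
  have hrM : Rl X p M y := (h4 V G X p hSR _ (hM.union hcu)).2.2.1 y hr M
    (fun x hx => Or.inr (Or.inl hx))
  have hyS : y ∈ S := by
    have hins : insert y S ∈ 𝒮 := by
      refine ⟨?_, ?_⟩
      · rintro z (rfl | hz)
        · exact ⟨hy, hrM⟩
        · exact hS.prop.1 z hz
      · have h5 := (h3 V G X M hM).2.2.2.2.2.2.2.1 S Unit (fun z => Set.range z.1)
          (fun _ => Set.range y) (fun _ => Set.countable_range _)
          (fun _ => Set.countable_range _) hS.prop.2 (zsb_single y) (by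
            have e : (⋃ _ : Unit, Set.range y) = Set.range y := Set.iUnion_const _
            rw [e]
            exact si_symm hM (Set.countable_range y) hcu hsi)
        let F : ↥(insert y S) → S ⊕ Unit := fun z =>
          if h : z.1 ∈ S then Sum.inl ⟨z.1, h⟩ else Sum.inr ()
        have hF : Function.Injective F := by
          intro z w hzw
          by_cases hz : z.1 ∈ S
          · by_cases hw : w.1 ∈ S
            · simp only [F, dif_pos hz, dif_pos hw] at hzw
              apply Subtype.ext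
              have h8 := Sum.inl.inj hzw
              exact congrArg (fun u : ↥S => u.1) h8
            · simp only [F, dif_pos hz, dif_neg hw] at hzw
              exact absurd hzw (by simp)
          · by_cases hw : w.1 ∈ S
            · simp only [F, dif_neg hz, dif_pos hw] at hzw
              exact absurd hzw (by simp)
            · apply Subtype.ext
              rw [(z.2.resolve_right hz : z.1 = y), (w.2.resolve_right hw : w.1 = y)]
        have h6 := (h3 V G X M hM).2.2.1 _ _ _ F hF h5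
        have e : (fun z : ↥(insert y S) => Set.range z.1) = fun z =>
            Sum.elim (fun z : S => Set.range z.1) (fun _ : Unit => Set.range y) (F z) := by
          funext z
          by_cases hz : z.1 ∈ S
          · simp only [F, dif_pos hz, Sum.elim_inl]
          · simp only [F, dif_neg hz, Sum.elim_inr]
            rw [(z.2.resolve_right hz : z.1 = y)]
        rw [e]
        exact h6
    exact hS.le_of_ge hins (Set.subset_insert y S) (Set.mem_insert y S)
  refine zsb_self h4 h7 hM hSR hp hrM ?_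
  refine si_right hM (Set.countable_range y) hcu ?_ hsi
  exact Set.subset_iUnion (fun k : S => Set.range k.1) ⟨y, hyS⟩

theorem zsb_nat (h3 : ST_IND) (h4 : ST_RLB) (h7 : ST_MDLB) {X : Ctx V G} {Q M : Set V}
    {p : Ty V} (hQ : Q.Countable) (hM : M.Countable) (hSR : SR X p) (hp : p.A ⊆ M)
    (hd : ∀ k, ¬ Dmn X p M Q k) : ∃ b : ℕ → Fin 1 → V, zsb_P X Q M p b := by
  obtain ⟨S, hS, h⟩ := zsb_zorn h3 h4 h7 hQ hM hSR hp
  have hSc : Countable S := hS
  rcases finite_or_infinite S with hf | hi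
  · obtain ⟨n, ⟨e⟩⟩ := Finite.exists_equiv_fin S
    exact absurd (zsb_to_dmn hp (zsb_reindex h3 hM e.symm h)) (hd n)
  · obtain ⟨e⟩ := nonempty_equiv_of_countable (α := ℕ) (β := S)
    exact ⟨_, zsb_reindex h3 hM e h⟩

/-- assembling the families -/
theorem zsb_bs (h1 : ST_ORC) (h3 : ST_IND) (h4 : ST_RLB) {X : Ctx V G} {Q M : Set V}
    {Ξ : Type} [Countable Ξ] {q : Ξ → Ty V} (hM : M.Countable)
    (hq : ∀ x, SR X (q x) ∧ (q x).A ⊆ M) (hno : ∀ x y, x ≠ y → ¬ NO X (q x) (q y))
    (κ : Ξ → Type) [∀ x, Countable (κ x)] (b : ∀ x, κ x → Fin 1 → V)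
    (hb : ∀ x, zsb_P X Q M (q x) (b x)) :
    BS X Q M q (Sigma.fst : (Σ x, κ x) → Ξ) (fun k => b k.1 k.2) := by
  refine ⟨fun k => (hb k.1).1 k.2, fun k => (hb k.1).2.1 k.2, ?_, ?_⟩
  · refine h1 V G X M Ξ q (Σ x, κ x) Sigma.fst (fun k => b k.1 k.2) hM hq hno
      (fun k => (hb k.1).2.1 k.2) ?_
    intro x
    let F : {k : Σ x, κ x // k.1 = x} → κ x := fun k => k.2 ▸ k.1.2
    have hF : Function.Injective F := by
      rintro ⟨⟨x1, i⟩, hi⟩ ⟨⟨x2, j⟩, hj⟩ hij
      subst hi
      change x2 = x1 at hj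
      subst hj
      change i = j at hij
      rw [hij]
    have h6 := (h3 V G X M hM).2.2.1 _ _ (fun i => Set.range (b x i)) F hF (hb x).2.2.1
    have e : (fun k : {k : Σ x, κ x // k.1 = x} => Set.range (b k.1.1 k.1.2)) = fun k =>
        Set.range (b x (F k)) := by
      funext k
      obtain ⟨⟨x1, i⟩, hi⟩ := k
      change x1 = x at hi
      subst hi
      rfl
    rw [e]
    exact h6
  · intro x y hy hr
    have hcu : (⋃ k : Σ x, κ x, Set.range (b k.1 k.2)).Countable :=
      Set.countable_iUnion fun k => Set.countable_range _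
    refine (hb x).2.2.2 y hy ?_
    refine (h4 V G X (q x) (hq x).1 _ (hM.union hcu)).2.2.1 y hr _ ?_
    rintro z (hz | hz)
    · exact Or.inr (Or.inl hz)
    · obtain ⟨i, hi⟩ := Set.mem_iUnion.1 hz
      exact Or.inr (Or.inr (Set.mem_iUnion.2 ⟨⟨x, i⟩, hi⟩))

theorem st_ZSB (h1 : ST_ORC) (h2 : ST_UNQ) (h3 : ST_IND) (h4 : ST_RLB) (h5 : ST_INVA)
    (_h6 : ST_INVB) (h7 : ST_MDLB) (_h8 : ST_DIM) : ST_ZSB := by
  intro V G _ _ X Q M1 f Ξ _ q hQ hM1 hMQ hfQ hq hno hdm
  have hM : M1.Countable := hM1.1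
  have hM' : (tr f M1).Countable := tr_countable f hM
  have hq' : ∀ x, SR X (mv f (q x)) ∧ (mv f (q x)).A ⊆ tr f M1 := fun x =>
    ⟨(h5 V G X f).2.2.1 (q x) (hq x).1, tr_mono f (hq x).2⟩
  have hno' : ∀ x y, x ≠ y → ¬ NO X (mv f (q x)) (mv f (q y)) := by
    intro x y hxy h
    have := (h5 V G X f⁻¹).2.2.2.1 _ _ h
    rw [(h5 V G X f).1, (h5 V G X f).1] at this
    exact hno x y hxy this
  have key : ∀ x, ∃ (κ : Type) (_ : Countable κ) (b b' : κ → Fin 1 → V),
      zsb_P X Q M1 (q x) b ∧ zsb_P X Q (tr f M1) (mv f (q x)) b' := by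
    intro x
    by_cases h : ∃ k, Dmn X (q x) M1 Q k
    · obtain ⟨k, hk⟩ := h
      obtain ⟨b, hb⟩ := zsb_of_dmn (hq x).2 hk
      obtain ⟨b', hb'⟩ := zsb_of_dmn (hq' x).2 ((hdm x k).1 hk)
      exact ⟨Fin k, inferInstance, b, b', hb, hb'⟩
    · push Not at h
      obtain ⟨b, hb⟩ := zsb_nat h3 h4 h7 hQ.1 hM (hq x).1 (hq x).2 h
      obtain ⟨b', hb'⟩ := zsb_nat h3 h4 h7 hQ.1 hM' (hq' x).1 (hq' x).2
        (fun k hk => h k ((hdm x k).2 hk))
      exact ⟨ℕ, inferInstance, b, b', hb, hb'⟩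
  choose κ hκ b b' hb hb' using key
  have := hκ
  have hB := zsb_bs h1 h3 h4 hM hq hno κ b hb
  have hB' := zsb_bs h1 h3 h4 hM' hq' hno' κ b' hb'
  obtain ⟨g, hg, hgb⟩ := h2 V G X M1 (Σ x, κ x) (fun k => q k.1) (fun k => b k.1 k.2)
    (fun k => f⁻¹ • b' k.1 k.2) hM (by
      intro k
      refine ⟨(hq k.1).1, (hq k.1).2, hB.rl k, ?_⟩
      have h9 := (h5 V G X f⁻¹).2.1 _ _ _ (hq' k.1).1.cnt hM' (hB'.rl k)
      rwa [(h5 V G X f).1, tr_inv_tr] at h9) hB.ind (by
      have h9 := (h3 V G X (tr f M1) hM').2.2.2.2.2.2.1 (Σ x, κ x) _ f⁻¹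
        (fun _ => Set.countable_range _) hB'.ind
      rw [tr_inv_tr] at h9
      have e : (fun k : (Σ x, κ x) => tr f⁻¹ (Set.range (b' k.1 k.2))) =
          fun k => Set.range (f⁻¹ • b' k.1 k.2) := by
        funext k
        exact tr_range _ _
      rw [e] at h9
      exact h9)
  refine ⟨Σ x, κ x, inferInstance, Sigma.fst, fun k => b k.1 k.2, fun k => b' k.1 k.2, f * g,
    hB, hB', ?_, ?_⟩
  · intro x hx
    rw [mul_smul, hg x hx]
  · intro k
    rw [mul_smul, hgb k, smul_inv_smul]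

end Pool.Agent.Helper90.MZ
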